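import Pool.Agent.W645.WV.Stm

/-!
WV-ZERO: the low frequency piece of the solution of the wave equation.
-/

set_option autoImplicit false

open MeasureTheory Set Complex
open scoped ENNReal

namespace Pool.Agent.W154.WV.Zero

open Pool.Agent.W645.WV

theorem IFT_add {n : ℕ} {g h : (Fin n → ℝ) → ℂ} (hg : Integrable g) (hh : Integrable h)
    (x : Fin n → ℝ) : IFT (fun ξ => g ξ + h ξ) x = IFT g x + IFT h x := by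
  have key : ∀ {g : (Fin n → ℝ) → ℂ}, Integrable g → Integrable (fun ξ : Fin n → ℝ =>
      g ξ * cexp (2 * (Real.pi : ℂ) * I * ((∑ j, x j * ξ j : ℝ) : ℂ))) := by
    intro g hg
    refine hg.mul_bdd (c := 1) ?_ ?_
    · have hc : Continuous (fun ξ : Fin n → ℝ =>
          cexp (2 * (Real.pi : ℂ) * I * ((∑ j, x j * ξ j : ℝ) : ℂ))) := by
        refine Complex.continuous_exp.comp (continuous_const.mul ?_)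
        exact Complex.continuous_ofReal.comp (continuous_finsetSum _ fun j _ =>
          continuous_const.mul (continuous_apply j))
      exact hc.aestronglyMeasurable
    · refine Filter.Eventually.of_forall fun ξ => ?_
      rw [show (2 * (Real.pi : ℂ) * I * ((∑ j, x j * ξ j : ℝ) : ℂ)) =
        ((2 * Real.pi * ∑ j, x j * ξ j : ℝ) : ℂ) * I by push_cast; ring]
      rw [Complex.norm_exp_ofReal_mul_I]
  unfold IFT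
  rw [← integral_add (key hg) (key hh)]
  congr 1
  funext ξ
  ring

theorem Q_nonneg {n : ℕ} (ξ : Fin n → ℝ) : 0 ≤ Q ξ :=
  Finset.sum_nonneg fun j _ => sq_nonneg _

theorem Q_le_H {n : ℕ} {a : Fin n → ℝ} (ha : a ∈ box n) (ξ : Fin n → ℝ) : Q ξ ≤ H a ξ := by
  refine Finset.sum_le_sum fun j _ => ?_
  have h1 : 1 ≤ a j := ha.1 j
  nlinarith [sq_nonneg (ξ j)]

theorem continuous_H {n : ℕ} (a : Fin n → ℝ) : Continuous (fun ξ : Fin n → ℝ => H a ξ) := by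
  unfold H
  fun_prop

theorem measurableSet_box (n : ℕ) : MeasurableSet (box n) := measurableSet_Icc

theorem FT_zero (n : ℕ) : FT (⇑(0 : SchwartzMap (Fin n → ℝ) ℂ)) = fun _ => 0 := by
  funext ξ
  simp [FT]

/-- the functions `f_i` -/
theorem lift {n : ℕ} {CM : ℝ} (hM : ∀ N : ℝ, 0 < N → ∀ Θ : ℝ → ℂ,
      Cls (-1) 16 N (n + 2) Θ → ∀ κ : ℝ, 0 < κ → ∀ f : (Fin n → ℝ) → ℂ, Measurable f →
      Integrable f → ∃ f' : (Fin n → ℝ) → ℂ, Measurable f' ∧ Integrable f' ∧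
        (∀ ξ, FT f' ξ = Θ (κ * Q ξ) * FT f ξ) ∧
        ∀ p : ℝ, 1 ≤ p → ∫⁻ x, ‖f' x‖ₑ ^ p ≤ ENNReal.ofReal ((CM * N) ^ p) * ∫⁻ x, ‖f x‖ₑ ^ p)
    (hSch : S_SCH) {N0 : ℝ} (hN0 : 0 < N0) {Θ0 : ℝ → ℂ} (hΘ0 : Cls (-1) 16 N0 (n + 2) Θ0) {r : ℝ}
    (he : ∀ y, 0 ≤ y → y ≤ 4 → Θ0 y = (((1 + 4 * Real.pi ^ 2 * y) ^ (-(r / 2)) : ℝ) : ℂ))
    (u : SchwartzMap (Fin n → ℝ) ℂ) :
    ∃ f : (Fin n → ℝ) → ℂ, Measurable f ∧ Integrable f ∧ (∀ ξ, Q ξ ≤ 4 → FT f ξ = FT (⇑u) ξ) ∧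
      ∀ p : ℝ, 1 ≤ p → ∫⁻ x, ‖f x‖ₑ ^ p ≤
        ENNReal.ofReal ((CM * N0) ^ p) * ∫⁻ x, ‖J r (⇑u) x‖ₑ ^ p := by
  obtain ⟨h1, h2, -, -, -, -, h3⟩ := hSch n u r
  obtain ⟨f, hf1, hf2, hf3, hf4⟩ := hM N0 hN0 Θ0 hΘ0 1 one_pos (J r (⇑u)) h1.measurable h2
  refine ⟨f, hf1, hf2, fun ξ hξ => ?_, hf4⟩
  rw [hf3 ξ, h3 ξ, one_mul, he (Q ξ) (Q_nonneg ξ) hξ, ← mul_assoc, ← ofReal_mul,
    ← Real.rpow_add (by have := Q_nonneg ξ; positivity), neg_add_cancel, Real.rpow_zero]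
  simp

/-- one piece -/
theorem piece {n : ℕ} {p CL NS : ℝ} (hp : 1 ≤ p) (hCL : 0 < CL) (hNS : 0 < NS)
    (hL : ∀ N : ℝ, 0 < N → ∀ Θ : ℝ → ℂ, Cls (-1) 16 N 2 Θ →
      ∀ f : (Fin n → ℝ) → ℂ, Measurable f → Integrable f →
      ∫⁻ a in box n, ∫⁻ x, ‖IFT (fun ξ => Θ (H a ξ) * FT f ξ) x‖ₑ ^ p ≤
        ENNReal.ofReal (CL * N ^ p) * ∫⁻ x, ‖f x‖ₑ ^ p)
    {Θ ψ₀ m : ℝ → ℂ} (hΘ : Cls (-1) 16 NS 2 Θ) (hΘe : ∀ y, 0 ≤ y → Θ y = ψ₀ y * m y)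
    (hψs : ∀ y, ψ₀ y ≠ 0 → -1 ≤ y ∧ y ≤ 4) {f : (Fin n → ℝ) → ℂ} (hf1 : Measurable f)
    (hf2 : Integrable f) {v : (Fin n → ℝ) → ℂ} (hf3 : ∀ ξ, Q ξ ≤ 4 → FT f ξ = v ξ)
    {K : ℝ} (hK : 0 ≤ K) {F : (Fin n → ℝ) → ℂ}
    (hf4 : ∫⁻ x, ‖f x‖ₑ ^ p ≤ ENNReal.ofReal K * ∫⁻ x, ‖F x‖ₑ ^ p) :
    ∫⁻ a in box n, ∫⁻ x, ‖IFT (fun ξ => ψ₀ (H a ξ) * (m (H a ξ) * v ξ)) x‖ₑ ^ p ≤
      ENNReal.ofReal (CL * NS ^ p * K) * ∫⁻ x, ‖F x‖ₑ ^ p := by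
  have e : ∫⁻ a in box n, ∫⁻ x, ‖IFT (fun ξ => ψ₀ (H a ξ) * (m (H a ξ) * v ξ)) x‖ₑ ^ p =
      ∫⁻ a in box n, ∫⁻ x, ‖IFT (fun ξ => Θ (H a ξ) * FT f ξ) x‖ₑ ^ p := by
    refine setLIntegral_congr_fun (measurableSet_box n) fun a ha => ?_
    have : (fun ξ => ψ₀ (H a ξ) * (m (H a ξ) * v ξ)) = fun ξ => Θ (H a ξ) * FT f ξ := by
      funext ξ
      have h0 : 0 ≤ H a ξ := (Q_nonneg ξ).trans (Q_le_H ha ξ)
      rw [hΘe _ h0]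
      by_cases h : ψ₀ (H a ξ) = 0
      · rw [h]
        simp
      · rw [hf3 ξ ((Q_le_H ha ξ).trans (hψs _ h).2), mul_assoc]
    simp only [this]
  rw [e]
  refine (hL NS hNS Θ hΘ f hf1 hf2).trans ?_
  calc ENNReal.ofReal (CL * NS ^ p) * ∫⁻ x, ‖f x‖ₑ ^ p
      ≤ ENNReal.ofReal (CL * NS ^ p) * (ENNReal.ofReal K * ∫⁻ x, ‖F x‖ₑ ^ p) := by gcongr
    _ = ENNReal.ofReal (CL * NS ^ p * K) * ∫⁻ x, ‖F x‖ₑ ^ p := by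
        rw [← mul_assoc, ← ENNReal.ofReal_mul (by positivity)]

/-- Jensen -/
theorem jensen {p : ℝ} (hp : 2 ≤ p) {g : ℝ → ℂ} (hg : Measurable g) :
    (∫⁻ t in Icc (1 : ℝ) 2, ‖g t‖ₑ ^ (2 : ℝ)) ^ (p / 2) ≤ ∫⁻ t in Icc (1 : ℝ) 2, ‖g t‖ₑ ^ p := by
  have hprob : IsProbabilityMeasure (volume.restrict (Icc (1 : ℝ) 2)) := by
    constructor
    rw [Measure.restrict_apply_univ, Real.volume_Icc]
    norm_num
  have h := eLpNorm'_le_eLpNorm'_of_exponent_le (by norm_num : (0 : ℝ) < 2) hp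
    (volume.restrict (Icc (1 : ℝ) 2)) hg.aestronglyMeasurable
  unfold eLpNorm' at h
  have h2 := ENNReal.rpow_le_rpow h (by linarith : (0 : ℝ) ≤ p)
  rw [← ENNReal.rpow_mul, ← ENNReal.rpow_mul, one_div_mul_cancel (by linarith : p ≠ 0),
    ENNReal.rpow_one] at h2
  rw [show 1 / (2 : ℝ) * p = p / 2 by ring] at h2
  exact h2

theorem swap1 {n : ℕ} {g : (Fin n → ℝ) → ℝ → (Fin n → ℝ) → ℂ} {p : ℝ} {K : ℝ≥0∞}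
    (hg : Measurable (fun q : ((Fin n → ℝ) × ℝ) × (Fin n → ℝ) => g q.1.1 q.1.2 q.2))
    (h : ∀ t ∈ Icc (1 : ℝ) 2, ∫⁻ a in box n, ∫⁻ x, ‖g a t x‖ₑ ^ p ≤ K) :
    ∫⁻ a in box n, ∫⁻ t in Icc (1 : ℝ) 2, ∫⁻ x, ‖g a t x‖ₑ ^ p ≤ K := by
  have hm : Measurable (fun q : ((Fin n → ℝ) × ℝ) × (Fin n → ℝ) =>
      ‖g q.1.1 q.1.2 q.2‖ₑ ^ p) := hg.enorm.pow_const p
  have hm2 : Measurable (fun q : (Fin n → ℝ) × ℝ => ∫⁻ x, ‖g q.1 q.2 x‖ₑ ^ p) :=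
    hm.lintegral_prod_right'
  have e := lintegral_lintegral_swap (μ := volume.restrict (box n))
    (ν := volume.restrict (Icc (1 : ℝ) 2)) (f := fun a t => ∫⁻ x, ‖g a t x‖ₑ ^ p)
    hm2.aemeasurable
  rw [e]
  calc ∫⁻ t in Icc (1 : ℝ) 2, ∫⁻ a in box n, ∫⁻ x, ‖g a t x‖ₑ ^ p
      ≤ ∫⁻ _ in Icc (1 : ℝ) 2, K := setLIntegral_mono' measurableSet_Icc fun t ht => h t ht
    _ = K := by
        rw [setLIntegral_const, Real.volume_Icc]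
        norm_num

theorem second {n : ℕ} {g : (Fin n → ℝ) → ℝ → (Fin n → ℝ) → ℂ} {p : ℝ} (hp : 2 ≤ p)
    (hg : Measurable (fun q : ((Fin n → ℝ) × ℝ) × (Fin n → ℝ) => g q.1.1 q.1.2 q.2)) :
    ∫⁻ a in box n, ∫⁻ x, (∫⁻ t in Icc (1 : ℝ) 2, ‖g a t x‖ₑ ^ (2 : ℝ)) ^ (p / 2) ≤
      ∫⁻ a in box n, ∫⁻ t in Icc (1 : ℝ) 2, ∫⁻ x, ‖g a t x‖ₑ ^ p := by
  refine lintegral_mono fun a => ?_
  have hm0 : Measurable (fun q : (Fin n → ℝ) × ℝ => ((a, q.2), q.1)) := by fun_prop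
  have hmW2 : Measurable (fun q : (Fin n → ℝ) × ℝ => g a q.2 q.1) := hg.comp hm0
  have hm1 : ∀ x : Fin n → ℝ, Measurable (fun t : ℝ => (x, t)) := fun x => by fun_prop
  have hm2 : ∀ x : Fin n → ℝ, Measurable (fun t : ℝ => g a t x) := fun x => hmW2.comp (hm1 x)
  have hm3 : Measurable (fun q : (Fin n → ℝ) × ℝ => ‖g a q.2 q.1‖ₑ ^ p) :=
    hmW2.enorm.pow_const p
  calc ∫⁻ x, (∫⁻ t in Icc (1 : ℝ) 2, ‖g a t x‖ₑ ^ (2 : ℝ)) ^ (p / 2)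
      ≤ ∫⁻ x, ∫⁻ t in Icc (1 : ℝ) 2, ‖g a t x‖ₑ ^ p := by
        refine lintegral_mono fun x => ?_
        have := jensen hp (hm2 x)
        exact this
    _ = ∫⁻ t in Icc (1 : ℝ) 2, ∫⁻ x, ‖g a t x‖ₑ ^ p :=
        lintegral_lintegral_swap (μ := (volume : Measure (Fin n → ℝ)))
          (ν := volume.restrict (Icc (1 : ℝ) 2)) (f := fun x t => ‖g a t x‖ₑ ^ p)
          hm3.aemeasurable

theorem meas_fix {n : ℕ} {g : (Fin n → ℝ) → ℝ → (Fin n → ℝ) → ℂ}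
    (hg : Measurable (fun q : ((Fin n → ℝ) × ℝ) × (Fin n → ℝ) => g q.1.1 q.1.2 q.2)) (t : ℝ) :
    Measurable (fun q : (Fin n → ℝ) × (Fin n → ℝ) => g q.1 t q.2) := by
  have hmq : Measurable (fun q : (Fin n → ℝ) × (Fin n → ℝ) => ((q.1, t), q.2)) := by fun_prop
  exact hg.comp hmq

theorem split {n : ℕ} {gA gB gW : (Fin n → ℝ) → (Fin n → ℝ) → ℂ} {p : ℝ} (hp : 1 ≤ p)
    (hmA : Measurable (fun q : (Fin n → ℝ) × (Fin n → ℝ) => gA q.1 q.2))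
    (hsum : ∀ a x, gW a x = gA a x + gB a x) :
    ∫⁻ a in box n, ∫⁻ x, ‖gW a x‖ₑ ^ p ≤ (2 : ℝ≥0∞) ^ (p - 1) *
      ((∫⁻ a in box n, ∫⁻ x, ‖gA a x‖ₑ ^ p) + ∫⁻ a in box n, ∫⁻ x, ‖gB a x‖ₑ ^ p) := by
  have hmAt : Measurable (fun q : (Fin n → ℝ) × (Fin n → ℝ) => ‖gA q.1 q.2‖ₑ ^ p) :=
    hmA.enorm.pow_const p
  have hmA1 : Measurable (fun a : Fin n → ℝ => ∫⁻ x, ‖gA a x‖ₑ ^ p) :=
    hmAt.lintegral_prod_right'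
  have hmA2 : ∀ a : Fin n → ℝ, Measurable (fun x : Fin n → ℝ => ‖gA a x‖ₑ ^ p) :=
    fun a => hmAt.comp (measurable_const.prodMk measurable_id)
  have htop : (2 : ℝ≥0∞) ^ (p - 1) ≠ ⊤ :=
    ENNReal.rpow_ne_top_of_nonneg (by linarith) (by norm_num)
  calc ∫⁻ a in box n, ∫⁻ x, ‖gW a x‖ₑ ^ p
      ≤ ∫⁻ a in box n, ∫⁻ x, (2 : ℝ≥0∞) ^ (p - 1) * (‖gA a x‖ₑ ^ p + ‖gB a x‖ₑ ^ p) := by
        refine lintegral_mono fun a => lintegral_mono fun x => ?_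
        simp only
        rw [hsum a x]
        refine le_trans ?_ (ENNReal.rpow_add_le_mul_rpow_add_rpow _ _ hp)
        exact ENNReal.rpow_le_rpow (enorm_add_le _ _) (by linarith)
    _ = (2 : ℝ≥0∞) ^ (p - 1) * ((∫⁻ a in box n, ∫⁻ x, ‖gA a x‖ₑ ^ p) +
          ∫⁻ a in box n, ∫⁻ x, ‖gB a x‖ₑ ^ p) := by
        simp_rw [lintegral_const_mul' _ _ htop]
        congr 1
        rw [← lintegral_add_left hmA1]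
        refine lintegral_congr fun a => ?_
        exact lintegral_add_left (hmA2 a) _

/-- decomposition -/
theorem decomp {n : ℕ} (hWm : S_WM) {ψ₀ : ℝ → ℂ} (hc : Continuous ψ₀) (hψb : ∀ y, ‖ψ₀ y‖ ≤ 1)
    (u₀ u₁ : SchwartzMap (Fin n → ℝ) ℂ) (a : Fin n → ℝ) (t : ℝ) (ht : 0 ≤ t) (x : Fin n → ℝ) :
    Wm ψ₀ (⇑u₀) (⇑u₁) a t x =
      Wm ψ₀ (⇑u₀) (⇑(0 : SchwartzMap (Fin n → ℝ) ℂ)) a t x +
        Wm ψ₀ (⇑(0 : SchwartzMap (Fin n → ℝ) ℂ)) (⇑u₁) a t x := by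
  have hzF : FT (⇑(0 : SchwartzMap (Fin n → ℝ) ℂ)) = fun _ => 0 := FT_zero n
  have hi0 := (hWm n u₀ 0 ψ₀ hc.measurable hψb).2.2 a t ht
  have hi1 := (hWm n 0 u₁ ψ₀ hc.measurable hψb).2.2 a t ht
  have hmH : AEStronglyMeasurable (fun ξ : Fin n → ℝ => ψ₀ (H a ξ)) volume :=
    (hc.comp (continuous_H a)).aestronglyMeasurable
  have hj0 := hi0.bdd_mul (c := 1) hmH (Filter.Eventually.of_forall fun ξ => hψb _)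
  have hj1 := hi1.bdd_mul (c := 1) hmH (Filter.Eventually.of_forall fun ξ => hψb _)
  have := IFT_add hj0 hj1 x
  unfold Wm
  rw [← this]
  congr 1
  funext ξ
  simp only [hzF]
  ring

theorem zero : S_LOW → S_SMQ → S_MUL → S_PU2 → S_SCH → S_WM → S_ZERO := by
  intro hLow hSmq hMul hPu2 hSch hWm ψ₀ ψ ψ' N hPU n p s hp2 hp4
  obtain ⟨hN, hψc, hψs, hψb, hψ1, -, -, -, -, -⟩ := hPU
  obtain ⟨CL, hCL, hL⟩ := hLow n p hp2 hp4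
  obtain ⟨CM, hCM, hM⟩ := hMul n
  obtain ⟨NS, hNS, hS⟩ := hSmq ψ₀ hψc
    (fun y hy => ⟨(hψs y hy).1, (hψs y hy).2.trans (by norm_num)⟩)
  obtain ⟨N0, hN0, ⟨Θ0, hΘ0, hΘ0e⟩, -⟩ := hPu2 (n + 2) (-(s / 2))
  obtain ⟨N1, hN1, ⟨Θ1, hΘ1, hΘ1e⟩, -⟩ := hPu2 (n + 2) (-((s - 1) / 2))
  have hp1 : 1 ≤ p := by linarith
  have hK0p : 0 < CL * NS ^ p * (CM * N0) ^ p := by positivity
  have hK1p : 0 < CL * NS ^ p * (CM * N1) ^ p := by positivity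
  obtain ⟨K0, hK0⟩ : ∃ K0, K0 = CL * NS ^ p * (CM * N0) ^ p := ⟨_, rfl⟩
  obtain ⟨K1, hK1⟩ : ∃ K1, K1 = CL * NS ^ p * (CM * N1) ^ p := ⟨_, rfl⟩
  rw [← hK0] at hK0p
  rw [← hK1] at hK1p
  refine ⟨2 ^ (p - 1) * (K0 + K1), by positivity, fun u₀ u₁ => ?_⟩
  -- the two pieces
  obtain ⟨f0, hf01, hf02, hf03, hf04⟩ := lift hM hSch hN0 hΘ0 hΘ0e u₀
  obtain ⟨f1, hf11, hf12, hf13, hf14⟩ := lift hM hSch hN1 hΘ1 hΘ1e u₁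
  have hzF : FT (⇑(0 : SchwartzMap (Fin n → ℝ) ℂ)) = fun _ => 0 := FT_zero n
  have hA : ∀ t ∈ Icc (1 : ℝ) 2,
      ∫⁻ a in box n, ∫⁻ x, ‖Wm ψ₀ (⇑u₀) (⇑(0 : SchwartzMap (Fin n → ℝ) ℂ)) a t x‖ₑ ^ p ≤
      ENNReal.ofReal K0 * ∫⁻ x, ‖J s (⇑u₀) x‖ₑ ^ p := by
    intro t ht
    obtain ⟨Θ, Θ', h1, h2, h3, h4⟩ := hS t ht
    have := piece (m := fun y => ((Real.cos (2 * Real.pi * t * Real.sqrt y) : ℝ) : ℂ)) hp1 hCL hNS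
      hL h1 h3 hψs hf01 hf02 hf03 (by positivity : 0 ≤ (CM * N0) ^ p) (hf04 p hp1)
    rw [← hK0] at this
    refine le_trans (le_of_eq ?_) this
    simp only [Wm, hzF, mul_zero, add_zero]
  have hB : ∀ t ∈ Icc (1 : ℝ) 2,
      ∫⁻ a in box n, ∫⁻ x, ‖Wm ψ₀ (⇑(0 : SchwartzMap (Fin n → ℝ) ℂ)) (⇑u₁) a t x‖ₑ ^ p ≤
      ENNReal.ofReal K1 * ∫⁻ x, ‖J (s - 1) (⇑u₁) x‖ₑ ^ p := by
    intro t ht
    obtain ⟨Θ, Θ', h1, h2, h3, h4⟩ := hS t ht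
    have := piece (m := fun y => ((sn t y : ℝ) : ℂ)) hp1 hCL hNS
      hL h2 h4 hψs hf11 hf12 hf13 (by positivity : 0 ≤ (CM * N1) ^ p) (hf14 p hp1)
    rw [← hK1] at this
    refine le_trans (le_of_eq ?_) this
    simp only [Wm, hzF, mul_zero, zero_add]
  -- for each t
  have hT : ∀ t ∈ Icc (1 : ℝ) 2, ∫⁻ a in box n, ∫⁻ x, ‖Wm ψ₀ (⇑u₀) (⇑u₁) a t x‖ₑ ^ p ≤
      ENNReal.ofReal (2 ^ (p - 1) * (K0 + K1)) * DN p s (⇑u₀) (⇑u₁) := by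
    intro t ht
    have ht0 : 0 ≤ t := by linarith [ht.1]
    have hmA := meas_fix (g := fun a t x => Wm ψ₀ (⇑u₀) (⇑(0 : SchwartzMap (Fin n → ℝ) ℂ)) a t x)
      (hWm n u₀ 0 ψ₀ hψc.continuous.measurable hψb).1 t
    have h1 := split (gA := fun a x => Wm ψ₀ (⇑u₀) (⇑(0 : SchwartzMap (Fin n → ℝ) ℂ)) a t x)
      (gB := fun a x => Wm ψ₀ (⇑(0 : SchwartzMap (Fin n → ℝ) ℂ)) (⇑u₁) a t x)
      (gW := fun a x => Wm ψ₀ (⇑u₀) (⇑u₁) a t x) hp1 hmA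
      (fun a x => decomp hWm hψc.continuous hψb u₀ u₁ a t ht0 x)
    refine h1.trans ?_
    refine (mul_le_mul' le_rfl (add_le_add (hA t ht) (hB t ht))).trans ?_
    have h2 : ENNReal.ofReal (2 ^ (p - 1) * (K0 + K1)) =
        (2 : ℝ≥0∞) ^ (p - 1) * ENNReal.ofReal (K0 + K1) := by
      rw [ENNReal.ofReal_mul (by positivity)]
      congr 1
      rw [← ENNReal.ofReal_rpow_of_pos (by norm_num : (0 : ℝ) < 2)]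
      norm_num
    rw [h2, mul_assoc]
    refine mul_le_mul' le_rfl ?_
    unfold DN
    rw [mul_add]
    exact add_le_add (mul_le_mul' (ENNReal.ofReal_le_ofReal (by linarith)) le_rfl)
      (mul_le_mul' (ENNReal.ofReal_le_ofReal (by linarith)) le_rfl)
  have hmW := (hWm n u₀ u₁ ψ₀ hψc.continuous.measurable hψb).1
  have hfirst := swap1 (g := fun a t x => Wm ψ₀ (⇑u₀) (⇑u₁) a t x) hmW hT
  have hsecond := second (g := fun a t x => Wm ψ₀ (⇑u₀) (⇑u₁) a t x) hp2 hmW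
  exact ⟨hfirst, hsecond.trans hfirst⟩

end Pool.Agent.W154.WV.Zero
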